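import Pool.Agent.Work.MP_3f6cab_lc.Proof

/-!
# Composition-closed sets of inclusion-safe operations of Tarski's relation algebra are not
finitely generated
-/

set_option autoImplicit false

namespace Pool.Agent.Results.MP_3f6cab_lc.ComposedNotFG

open Pool.Agent.Work.MP_3f6cab_lc

/-- `WeakSafeTRA` and `MaxSafeTRA` are closed under composition. `MaxSafeTRA` is the largest
closed set of inclusion-safe operations term definable in `TRA` that contains the union, the
intersection, the composition and the universal relation. If `C` is a closed set of first-order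
definable inclusion-safe operations that contains `WeakSafeTRA`, then no finite subset of `C`
generates `WeakSafeTRA`. -/
theorem result : (Closed WeakSafeTRA ∧ Closed MaxSafeTRA) ∧
    (Basic ⊆ WeakSafeTRA ∧ WeakSafeTRA ⊆ MaxSafeTRA ∧ MaxSafeTRA ⊆ SafeTRA ∧ SafeTRA ⊆ SafeFO) ∧
    (∀ C : Set (Σ k, Op k), Closed C → Basic ⊆ C → C ⊆ SafeTRA → C ⊆ MaxSafeTRA) ∧
    ∀ C : Set (Σ k, Op k), Closed C → WeakSafeTRA ⊆ C → C ⊆ SafeFO →
      ∀ O' : Set (Σ k, Op k), O'.Finite → O' ⊆ C → ∃ o ∈ WeakSafeTRA, ¬ Definable O' o.2 :=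
  ⟨⟨closed_weakSafeTRA, closed_maxSafeTRA⟩,
    ⟨basic_subset, weakSafeTRA_subset_max, fun _ ho => ⟨ho.1, ho.2.2⟩, safeTRA_subset⟩,
    fun _ hC hB hS => subset_max hC hB hS,
    fun _ hC hW hS _ hfin hO => main hC hW hS hfin hO⟩

end Pool.Agent.Results.MP_3f6cab_lc.ComposedNotFG
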