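import Pool.Agent.Work.MP_3f6cab_lc.F22.Final

/-!
# Over finite structures, composition-closed sets of inclusion-safe operations of Tarski's relation
algebra are not finitely generated
-/

set_option autoImplicit false

namespace Pool.Agent.Results.MP_3f6cab_lc.FiniteComposedNotFG

open Pool.Agent.Work.MP_3f6cab_lc.F22

/-- All notions are read over finite structures. `WeakSafeTRA` and `MaxSafeTRA` are closed under
composition. `MaxSafeTRA` is the largest closed set of inclusion-safe operations term definable in
`TRA` that contains the union, the intersection, the composition and the universal relation. If `C`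
is a closed set of first-order definable inclusion-safe operations that contains `WeakSafeTRA`,
then no finite subset of `C` generates `WeakSafeTRA`; in particular `C` is not finitely
generated. -/
theorem result : (Closed WeakSafeTRA ∧ Closed MaxSafeTRA) ∧
    (Basic ⊆ WeakSafeTRA ∧ WeakSafeTRA ⊆ MaxSafeTRA ∧ MaxSafeTRA ⊆ SafeTRA ∧ SafeTRA ⊆ SafeFO) ∧
    (∀ C : Set (Σ k, Op k), Closed C → Basic ⊆ C → C ⊆ SafeTRA → C ⊆ MaxSafeTRA) ∧
    ∀ C : Set (Σ k, Op k), Closed C → WeakSafeTRA ⊆ C → C ⊆ SafeFO →
      ∀ O' : Set (Σ k, Op k), O'.Finite → O' ⊆ C → ∃ o ∈ WeakSafeTRA, ¬ Definable O' o.2 :=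
  ⟨⟨closed_weakSafeTRA, closed_maxSafeTRA⟩,
    ⟨basic_subset, weakSafeTRA_subset_max, fun _ ho => ⟨ho.1, ho.2.2⟩, safeTRA_subset⟩,
    fun _ hC hB hS => subset_max hC hB hS,
    fun _ hC hW hS _ hfin hO => final hfin
      fun _ ho => ⟨properSafe_of_mem hC hW hS (hO ho), (hS (hO ho)).2⟩⟩

end Pool.Agent.Results.MP_3f6cab_lc.FiniteComposedNotFG
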