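import Mathlib

/-!
# The inclusion-safe fragment of Tarski's relation algebra is finitely generated

All notions are relative to a class `K` of structures, given by the admissible domains: all
domains, or the finite ones.
-/

namespace Pool.Agent.Results.MP_3f6cab_lc.SafeFragment

/-- An `n`-ary operation on binary relations: it assigns a binary relation on `A` to every
structure with domain `A` and `n` binary relations. -/
def Op (n : ℕ) : Type 1 := ∀ A : Type, (Fin n → A → A → Prop) → A → A → Prop

/-- The terms of `BRA(O)` in the relation symbols `R_0, ..., R_(n-1)`. -/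
inductive Term (O : Set (Σ k, Op k)) (n : ℕ) : Type 1
  | rel (i : Fin n) : Term O n
  | app (k : ℕ) (f : Op k) (hf : (⟨k, f⟩ : Σ k, Op k) ∈ O) (args : Fin k → Term O n) : Term O n

/-- The operation defined by a term. -/
def Term.eval {O : Set (Σ k, Op k)} {n : ℕ} : Term O n → Op n
  | .rel i => fun _ R => R i
  | .app _ f _ args => fun A R => f A fun j => (args j).eval A R

/-- `f` is defined by some term of `BRA(O)` on all structures with domain in `K`. -/
def Definable (K : Type → Prop) (O : Set (Σ k, Op k)) {n : ℕ} (f : Op n) : Prop :=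
  ∃ t : Term O n, ∀ A, K A → ∀ R, t.eval A R = f A R

/-- The identity relation. -/
def idOp : Op 0 := fun _ _ x y => x = y
/-- The empty relation. -/
def emptyOp : Op 0 := fun _ _ _ _ => False
/-- The complement. -/
def complOp : Op 1 := fun _ R x y => ¬ R 0 x y
/-- The intersection. -/
def interOp : Op 2 := fun _ R x y => R 0 x y ∧ R 1 x y
/-- The composition. -/
def compOp : Op 2 := fun _ R x y => ∃ z, R 0 x z ∧ R 1 z y
/-- The converse. -/
def convOp : Op 1 := fun _ R x y => R 0 y x

/-- The operations of Tarski's relation algebra. -/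
def TRA : Set (Σ k, Op k) :=
  {⟨0, idOp⟩, ⟨0, emptyOp⟩, ⟨1, complOp⟩, ⟨2, interOp⟩, ⟨2, compOp⟩, ⟨1, convOp⟩}

/-- `f` is inclusion-safe over the structures with domain in `K`: if `A` is (identified through the
injection `e` with) an induced substructure of `B` and `(a, b) ∈ f(A)` then `(a, b) ∈ f(B)`. -/
def Safe (K : Type → Prop) {n : ℕ} (f : Op n) : Prop :=
  ∀ A B : Type, K A → K B → ∀ (e : A ↪ B) (R : Fin n → B → B → Prop) (a b : A),
    f A (fun i x y => R i (e x) (e y)) a b → f B R (e a) (e b)

/-- The inclusion-safe operations that are term definable in `TRA`. -/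
def SafeTRA (K : Type → Prop) : Set (Σ k, Op k) :=
  {o | Safe K o.2 ∧ Definable K TRA o.2}

/-- The set `O` of operations is finitely generated. -/
def FinitelyGenerated (K : Type → Prop) (O : Set (Σ k, Op k)) : Prop :=
  ∃ O' : Set (Σ k, Op k), O'.Finite ∧ O' ⊆ O ∧ ∀ o ∈ O, Definable K O' o.2

/-- The universal relation. -/
def topOp : Op 0 := fun _ _ _ _ => True
/-- The relative complement. -/
def diffOp : Op 2 := fun _ R x y => R 0 x y ∧ ¬ R 1 x y

/-- The generators. -/
def gens : Set (Σ k, Op k) :=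
  {⟨0, idOp⟩, ⟨0, topOp⟩, ⟨2, diffOp⟩, ⟨2, interOp⟩, ⟨2, compOp⟩, ⟨1, convOp⟩}

/-- If all operations of `O` are definable in `BRA(O')` so are all operations definable in
`BRA(O)`. -/
theorem exists_term {O O' : Set (Σ k, Op k)}
    (h : ∀ o ∈ O, ∃ t : Term O' o.1, ∀ A R, t.eval A R = o.2 A R) {n : ℕ} (t : Term O n) :
    ∃ t' : Term O' n, ∀ A R, t'.eval A R = t.eval A R := by
  induction t with
  | rel i => exact ⟨.rel i, fun _ _ => rfl⟩
  | app k f hf args ih =>
    choose s hs using ih
    obtain ⟨u, hu⟩ := h _ hf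
    have key : ∀ {m : ℕ} (u : Term O' m) (s : Fin m → Term O' n),
        ∃ v : Term O' n, ∀ A R, v.eval A R = u.eval A (fun j => (s j).eval A R) := by
      intro m u s
      induction u with
      | rel i => exact ⟨s i, fun _ _ => rfl⟩
      | app k f hf args ih =>
        choose w hw using ih
        refine ⟨.app k f hf w, fun A R => ?_⟩
        simp only [Term.eval, hw]
    obtain ⟨v, hv⟩ := key u s
    refine ⟨v, fun A R => ?_⟩
    rw [hv, hu]
    simp only [Term.eval, hs]

theorem finitelyGenerated (K : Type → Prop) : FinitelyGenerated K (SafeTRA K) := by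
  refine ⟨gens, ?_, ?_, ?_⟩
  · simp [gens]
  · intro o ho
    simp only [gens, Set.mem_insert_iff, Set.mem_singleton_iff] at ho
    have m1 : (⟨0, idOp⟩ : Σ k, Op k) ∈ TRA := by simp [TRA]
    have m2 : (⟨0, emptyOp⟩ : Σ k, Op k) ∈ TRA := by simp [TRA]
    have m3 : (⟨1, complOp⟩ : Σ k, Op k) ∈ TRA := by simp [TRA]
    have m4 : (⟨2, interOp⟩ : Σ k, Op k) ∈ TRA := by simp [TRA]
    have m5 : (⟨2, compOp⟩ : Σ k, Op k) ∈ TRA := by simp [TRA]
    have m6 : (⟨1, convOp⟩ : Σ k, Op k) ∈ TRA := by simp [TRA]
    rcases ho with rfl | rfl | rfl | rfl | rfl | rfl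
    · exact ⟨fun A B _ _ e R a b h => congrArg e h, .app 0 idOp m1 Fin.elim0, fun A _ R => rfl⟩
    · refine ⟨fun A B _ _ e R a b h => trivial,
        .app 1 complOp m3 (fun _ => .app 0 emptyOp m2 Fin.elim0), fun A _ R => ?_⟩
      funext x y
      simp [Term.eval, complOp, emptyOp, topOp]
    · refine ⟨fun A B _ _ e R a b h => h,
        .app 2 interOp m4 ![.rel 0, .app 1 complOp m3 (fun _ => .rel 1)], fun A _ R => ?_⟩
      funext x y
      simp [Term.eval, complOp, interOp, diffOp]
    · refine ⟨fun A B _ _ e R a b h => h, .app 2 interOp m4 (fun i => .rel i),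
        fun A _ R => rfl⟩
    · refine ⟨fun A B _ _ e R a b h => ?_, .app 2 compOp m5 (fun i => .rel i), fun A _ R => rfl⟩
      obtain ⟨z, h1, h2⟩ := h
      exact ⟨e z, h1, h2⟩
    · exact ⟨fun A B _ _ e R a b h => h, .app 1 convOp m6 (fun i => .rel i), fun A _ R => rfl⟩
  · rintro ⟨n, f⟩ ⟨-, t, ht⟩
    have h : ∀ o ∈ TRA, ∃ t : Term gens o.1, ∀ A R, t.eval A R = o.2 A R := by
      intro o ho
      simp only [TRA, Set.mem_insert_iff, Set.mem_singleton_iff] at ho
      have m1 : (⟨0, idOp⟩ : Σ k, Op k) ∈ gens := by simp [gens]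
      have m2 : (⟨0, topOp⟩ : Σ k, Op k) ∈ gens := by simp [gens]
      have m3 : (⟨2, diffOp⟩ : Σ k, Op k) ∈ gens := by simp [gens]
      have m4 : (⟨2, interOp⟩ : Σ k, Op k) ∈ gens := by simp [gens]
      have m5 : (⟨2, compOp⟩ : Σ k, Op k) ∈ gens := by simp [gens]
      have m6 : (⟨1, convOp⟩ : Σ k, Op k) ∈ gens := by simp [gens]
      rcases ho with rfl | rfl | rfl | rfl | rfl | rfl
      · exact ⟨.app 0 idOp m1 Fin.elim0, fun A R => rfl⟩
      · refine ⟨.app 2 diffOp m3 (fun _ => .app 0 topOp m2 Fin.elim0), fun A R => ?_⟩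
        funext x y
        simp [Term.eval, diffOp, emptyOp, topOp]
      · refine ⟨.app 2 diffOp m3 ![.app 0 topOp m2 Fin.elim0, .rel 0], fun A R => ?_⟩
        funext x y
        simp [Term.eval, diffOp, complOp, topOp]
      · exact ⟨.app 2 interOp m4 (fun i => .rel i), fun A R => rfl⟩
      · exact ⟨.app 2 compOp m5 (fun i => .rel i), fun A R => rfl⟩
      · exact ⟨.app 1 convOp m6 (fun i => .rel i), fun A R => rfl⟩
    obtain ⟨t', ht'⟩ := exists_term h t
    exact ⟨t', fun A hA R => (ht' A R).trans (ht A hA R)⟩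

/-- The inclusion-safe fragment of `TRA` is finitely generated, over arbitrary structures and in
the finite. -/
theorem result : FinitelyGenerated (fun _ => True) (SafeTRA fun _ => True) ∧
    FinitelyGenerated (fun A => Finite A) (SafeTRA fun A => Finite A) :=
  ⟨finitelyGenerated _, finitelyGenerated _⟩

end Pool.Agent.Results.MP_3f6cab_lc.SafeFragment
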